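import Pool.Agent.H85.TU.Targets2

/-!
# Row DUM: dummy quantifiers
-/

set_option autoImplicit false

open Set Pool.Agent.H85.TU

namespace Pool.Agent.H11.TU

theorem pre_congr : ∀ (π : List Bool) (R R' : List ℕ → Prop), (∀ l, R l ↔ R' l) →
    (Pre π R ↔ Pre π R')
  | [], _, _, h => h []
  | true :: π, R, R', h => by
    unfold Pre
    exact forall_congr' fun a => pre_congr π _ _ fun l => h (a :: l)
  | false :: π, R, R', h => by
    unfold Pre
    exact exists_congr fun a => pre_congr π _ _ fun l => h (a :: l)

theorem pre_true (π : List Bool) (R : List ℕ → Prop) :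
    Pre (true :: π) R ↔ ∀ a : ℕ, Pre π fun l => R (a :: l) := Iff.rfl

theorem pre_false (π : List Bool) (R : List ℕ → Prop) :
    Pre (false :: π) R ↔ ∃ a : ℕ, Pre π fun l => R (a :: l) := Iff.rfl

theorem key (π' π : List Bool) (h : π'.Sublist π) :
    ∃ r : Fin π'.length → Fin π.length, ∀ R : List ℕ → Prop,
      Pre π (fun l => R (List.ofFn fun i => l.getD (r i) 0)) ↔ Pre π' R := by
  induction h with
  | slnil =>
    refine ⟨fun i => i, fun R => ?_⟩
    simp only [Pre]
    exact Iff.rfl
  | @cons π₁ π₂ b _ ih =>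
    obtain ⟨r, hr⟩ := ih
    refine ⟨fun i => (r i).succ, fun R => ?_⟩
    have hg : ∀ (a : ℕ) (l : List ℕ), R (List.ofFn fun i : Fin π₁.length =>
        (a :: l).getD ((r i).succ : ℕ) 0) ↔ R (List.ofFn fun i => l.getD (r i) 0) := by
      intro a l
      simp only [Fin.val_succ, List.getD_cons_succ]
    cases b with
    | true =>
      rw [pre_true]
      constructor
      · intro h
        rw [← hr R]
        exact (pre_congr π₂ _ _ (hg 0)).1 (h 0)
      · intro h a
        rw [← hr R] at h
        exact (pre_congr π₂ _ _ (hg a)).2 h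
    | false =>
      rw [pre_false]
      constructor
      · rintro ⟨a, h⟩
        rw [← hr R]
        exact (pre_congr π₂ _ _ (hg a)).1 h
      · intro h
        rw [← hr R] at h
        exact ⟨0, (pre_congr π₂ _ _ (hg 0)).2 h⟩
  | @cons_cons π₁ π₂ b _ ih =>
    obtain ⟨r, hr⟩ := ih
    refine ⟨fun i => Fin.cases (motive := fun _ => Fin (π₂.length + 1)) 0 (fun j => (r j).succ) i,
      fun R => ?_⟩
    have hg : ∀ (a : ℕ) (l : List ℕ), R (List.ofFn fun i : Fin (π₁.length + 1) =>
        (a :: l).getD ((Fin.cases (motive := fun _ => Fin (π₂.length + 1)) 0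
          (fun j => (r j).succ) i : Fin (π₂.length + 1)) : ℕ) 0) ↔
        R (a :: List.ofFn fun i => l.getD (r i) 0) := by
      intro a l
      rw [List.ofFn_succ]
      simp only [Fin.cases_zero, Fin.cases_succ, Fin.val_succ, List.getD_cons_succ,
        Fin.val_zero, List.getD_cons_zero]
    cases b with
    | true =>
      rw [pre_true, pre_true]
      refine forall_congr' fun a => ?_
      rw [← hr fun l => R (a :: l)]
      exact pre_congr π₂ _ _ (hg a)
    | false =>
      rw [pre_false, pre_false]
      refine exists_congr fun a => ?_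
      rw [← hr fun l => R (a :: l)]
      exact pre_congr π₂ _ _ (hg a)

theorem reidx_meas {ι : Type} {ar : ι → ℕ} {D : ι → Type} [∀ i, MeasurableSpace (D i)] {m n : ℕ}
    (r : Fin m → Fin n) : Measurable (reidx r : TY ar D n → TY ar D m) := by
  unfold reidx
  apply Measurable.prodMk
  · refine measurable_pi_lambda _ fun i => measurable_pi_lambda _ fun v => ?_
    exact (measurable_pi_apply (r ∘ v)).comp ((measurable_pi_apply i).comp measurable_fst)
  · refine measurable_pi_lambda _ fun i => measurable_pi_lambda _ fun j => ?_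
    exact (measurable_pi_apply (r j)).comp ((measurable_pi_apply (r i)).comp measurable_snd)

theorem pf_DUM : T_DUM := by
  intro ι ar D _ π' π hπ B' hB'
  obtain ⟨r, hr⟩ := key π' π hπ
  refine ⟨(reidx r : TY ar D π.length → TY ar D π'.length) ⁻¹' B', reidx_meas r hB', ?_⟩
  ext x
  unfold Sent
  simp only [mem_ofPred_eq]
  rw [← hr fun l => tp x (fun i : Fin π'.length => l.getD i 0) ∈ B']
  refine pre_congr π _ _ fun l => ?_
  have h1 : (fun i : Fin π'.length => (List.ofFn fun j : Fin π'.length =>
      l.getD (r j : ℕ) 0).getD (i : ℕ) 0) = (fun i : Fin π.length => l.getD (i : ℕ) 0) ∘ r := by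
    funext i
    rw [List.getD_eq_getElem _ _ (by rw [List.length_ofFn]; exact i.2), List.getElem_ofFn]
    rfl
  rw [h1]
  exact Iff.rfl

end Pool.Agent.H11.TU
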