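import Pool.Agent.H85.TU.Targets

/-!
# Row ORB: the place of a point is in the orbit of its first place
-/

set_option autoImplicit false

open Set Pool.Agent.H85.TU

namespace Pool.Agent.H11.TU

section

variable {ι : Type} {ar : ι → ℕ} {D : ι → Type}

theorem orb_refl (x : Str ar D ℕ) (a : ℕ) : Orb x a a :=
  ⟨Equiv.refl ℕ, fun _ _ => rfl, rfl⟩

theorem orb_symm {x : Str ar D ℕ} {a b : ℕ} (h : Orb x a b) : Orb x b a := by
  obtain ⟨g, hg, hab⟩ := h
  refine ⟨g.symm, fun i v => ?_, by rw [← hab, Equiv.symm_apply_apply]⟩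
  have h1 := hg i (g.symm ∘ v)
  have h2 : g ∘ (g.symm ∘ v) = v := by
    funext k
    exact Equiv.apply_symm_apply g (v k)
  rw [h2] at h1
  exact h1.symm

theorem orb_trans {x : Str ar D ℕ} {a b c : ℕ} (h : Orb x a b) (h' : Orb x b c) : Orb x a c := by
  obtain ⟨g, hg, hab⟩ := h
  obtain ⟨g', hg', hbc⟩ := h'
  refine ⟨g.trans g', fun i v => ?_, by rw [Equiv.trans_apply, hab, hbc]⟩
  have h1 := hg' i (g ∘ v)
  exact h1.trans (hg i v)

theorem not_fx {x : Str ar D ℕ} {a b : ℕ} (h : Orb x a b) (ha : ¬ Fx x a) : ¬ Fx x b := by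
  intro hb
  have h1 : a = b := hb a (orb_symm h)
  rw [h1] at ha
  exact ha hb

theorem orb_swap {x : Str ar D ℕ} {a b : ℕ} (h : Orb x a b) (n : ℕ) :
    Orb x n (Equiv.swap a b n) := by
  rw [Equiv.swap_apply_def]
  split_ifs with h1 h2
  · rw [h1]; exact h
  · rw [h2]; exact orb_symm h
  · exact orb_refl x n

theorem orb_sg {x : Str ar D ℕ} (T : Dat x) (n : ℕ) : Orb x n (sg T n) := by
  unfold sg
  rw [Equiv.Perm.mul_apply]
  refine orb_trans (orb_swap T.oz n) (orb_swap ?_ _)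
  exact orb_trans (orb_symm (orb_swap T.oz T.u)) T.ou

theorem not_fx_mm {x : Str ar D ℕ} (T : Dat x) (q : Q) (h : Val T q) : ¬ Fx x (mm T q) := by
  cases q with
  | g => exact T.nz
  | e i => exact T.nz
  | f i => exact T.nu
  | new a b v =>
    simp only [Val] at h
    exact h.2.2.2.1

theorem orb_pl {x : Str ar D ℕ} (T : Dat x) (a b : Q) (ha : Val T a) (hb : Val T b) :
    Orb x (mm T a) (pl T a b).1 ∧ Orb x (mm T b) (pl T a b).2 := by
  have h := T.hρ (mm T a) (mm T b) (not_fx_mm T a ha) (not_fx_mm T b hb)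
  cases a with
  | e i =>
    cases b with
    | f j => exact ⟨orb_refl x _, orb_refl x _⟩
    | g => exact ⟨h.1, h.2.1⟩
    | e j => exact ⟨h.1, h.2.1⟩
    | new c d v => exact ⟨h.1, h.2.1⟩
  | g => exact ⟨h.1, h.2.1⟩
  | f i => exact ⟨h.1, h.2.1⟩
  | new c d v => exact ⟨h.1, h.2.1⟩

theorem orb_bp {x : Str ar D ℕ} (T : Dat x) (B : Blk T) (q : Q) :
    Orb x (mm T q) (bp B q) := by
  have h := orb_pl T B.1.1 B.1.2 B.2.1 B.2.2.1
  unfold bp
  split_ifs with h1 h2
  · rw [h1]; exact h.1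
  · rw [h2]; exact h.2
  · exact orb_refl x _

end

theorem pf_ORB : T_ORB := by
  intro ι ar D x T A B p q hp _
  have hv : Val T q := by
    have h := p.2
    rw [hp] at h
    exact h
  refine ⟨?_, not_fx_mm T q hv⟩
  have h1 := orb_bp T B q
  have h2 : Orb x (mm T q) (sg T (bp B q)) := orb_trans h1 (orb_sg T _)
  unfold pos
  rw [hp]
  dsimp only
  split_ifs
  · exact h2
  · exact h1

end Pool.Agent.H11.TU
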